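import Pool.Agent.N862.TR.Num3
import Pool.Agent.N862.TR.Fin
import Pool.Agent.N862.MC.Erg

/-!
Two-colourings of the plane with Lebesgue measurable colour classes: if no equilateral triangle of
side `d` is monochromatic, then for every `d' ≠ d` some equilateral triangle of side `d'` is
monochromatic. (helper862)

For side ratio at least `7 / 5` the proof is by Fourier analysis (`J_0(s) + J_0(t) > -2/3`). For side
ratio below `2` it is local: at a point where both colours have positive upper density, and all of
whose circles are generic, the colours on the two circles around the point are invariant under a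
group of rotations; this group is not dense by ergodicity, and not finite because of an arithmetic
fact on sums of two cosines.
-/

set_option autoImplicit false

open MeasureTheory

namespace Pool.Agent.Results.MP_3852e9_co.MeasurableColourings

open Pool.Agent.N862.MC

/-- the isometry between the complex plane and the Euclidean plane -/
noncomputable def iso : ℂ ≃ₗᵢ[ℝ] EuclideanSpace ℝ (Fin 2) := Complex.orthonormalBasisOneI.repr

theorem large {f : ℂ → ℝ} (hf : AEMeasurable f) (hpm : ∀ x, f x = 1 ∨ f x = -1) {d d' : ℝ}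
    (hd : 0 < d) (hd' : 7 / 5 * d ≤ d') (h1 : N862.TR.Av f d) (h2 : N862.TR.Av f d') : False := by
  refine N862.TR.two_sides hf hpm hd (by linarith) (κ := 1 / 1000) (by norm_num) ?_ h1 h2
  intro x hx
  have h := N862.TR.J_two' (s := d * x) (t := d' * x) (mul_nonneg hd.le hx)
    (by nlinarith [mul_le_mul_of_nonneg_right hd' hx])
  linarith

theorem main {col : EuclideanSpace ℝ (Fin 2) → Fin 2} (hcol : NullMeasurableSet (col ⁻¹' {0}))
    {d d' : ℝ} (hd : 0 < d) (hdd : d < d')
    (hno : ¬ ∃ x y z : EuclideanSpace ℝ (Fin 2),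
          dist x y = d ∧ dist y z = d ∧ dist x z = d ∧ col x = col y ∧ col y = col z)
    (hno' : ¬ ∃ x y z : EuclideanSpace ℝ (Fin 2),
          dist x y = d' ∧ dist y z = d' ∧ dist x z = d' ∧ col x = col y ∧ col y = col z) :
    False := by
  have hs : NullMeasurableSet (iso ⁻¹' (col ⁻¹' {0})) :=
    hcol.preimage iso.measurePreserving.quasiMeasurePreserving
  by_cases hbig : 7 / 5 * d ≤ d'
  · obtain ⟨f, hf⟩ : ∃ f : ℂ → ℝ, f = fun z => if col (iso z) = 0 then 1 else -1 := ⟨_, rfl⟩
    have hpm : ∀ x, f x = 1 ∨ f x = -1 := by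
      intro x
      rw [hf]
      by_cases h : col (iso x) = 0
      · left; simp [h]
      · right; simp [h]
    have hcolf : ∀ x y, f x = f y → col (iso x) = col (iso y) := by
      intro x y hxy
      rw [hf] at hxy
      simp only at hxy
      by_cases a : col (iso x) = 0 <;> by_cases b : col (iso y) = 0
      · rw [a, b]
      · rw [if_pos a, if_neg b] at hxy; norm_num at hxy
      · rw [if_neg a, if_pos b] at hxy; norm_num at hxy
      · omega
    have hfm : AEMeasurable f := by
      have h1 : AEMeasurable ((iso ⁻¹' (col ⁻¹' {0})).indicator (fun _ => (2 : ℝ))) :=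
        aemeasurable_const.indicator₀ hs
      have h2 : f = fun z => (iso ⁻¹' (col ⁻¹' {0})).indicator (fun _ => (2 : ℝ)) z - 1 := by
        funext z
        rw [hf]
        by_cases h : col (iso z) = 0
        · rw [Set.indicator_of_mem (show z ∈ iso ⁻¹' (col ⁻¹' {0}) from h)]
          simp [h]
          norm_num
        · rw [Set.indicator_of_notMem (show z ∉ iso ⁻¹' (col ⁻¹' {0}) from h)]
          simp [h]
      rw [h2]
      exact h1.sub aemeasurable_const
    have hav : ∀ r : ℝ, (¬ ∃ x y z : EuclideanSpace ℝ (Fin 2),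
        dist x y = r ∧ dist y z = r ∧ dist x z = r ∧ col x = col y ∧ col y = col z) → N862.TR.Av f r := by
      intro r hr x y z h1 h2 h3 h4
      refine hr ⟨iso x, iso y, iso z, ?_, ?_, ?_, hcolf x y h4.1, hcolf y z h4.2⟩
      · rw [iso.dist_map, h1]
      · rw [iso.dist_map, h2]
      · rw [iso.dist_map, h3]
    exact large hfm hpm hd hbig (hav d hno) (hav d' hno')
  · apply ratio_small hs hd hdd (by linarith)
    intro p w hw
    have hdist : dist (iso p) (iso (p + w)) = ‖w‖ ∧ dist (iso (p + w)) (iso (p + om * w)) = ‖w‖ ∧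
        dist (iso p) (iso (p + om * w)) = ‖w‖ := by
      refine ⟨?_, ?_, ?_⟩
      · rw [iso.dist_map, dist_self_add_right]
      · rw [iso.dist_map, dist_add_left, dist_eq_norm,
          show w - om * w = (1 - om) * w by ring, norm_mul, norm_sub_om, one_mul]
      · rw [iso.dist_map, dist_self_add_right, norm_mul, norm_om, one_mul]
    have hcc : ¬ (col (iso p) = col (iso (p + w)) ∧ col (iso (p + w)) = col (iso (p + om * w))) := by
      intro h
      rcases hw with hw | hw
      · rw [hw] at hdist
        exact hno ⟨_, _, _, hdist.1, hdist.2.1, hdist.2.2, h.1, h.2⟩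
      · rw [hw] at hdist
        exact hno' ⟨_, _, _, hdist.1, hdist.2.1, hdist.2.2, h.1, h.2⟩
    have hm : ∀ z, z ∈ iso ⁻¹' (col ⁻¹' {0}) ↔ col (iso z) = 0 := fun z => Iff.rfl
    refine ⟨?_, ?_⟩
    · rintro ⟨h1, h2, h3⟩
      rw [hm] at h1 h2 h3
      exact hcc ⟨by rw [h1, h2], by rw [h2, h3]⟩
    · rintro ⟨h1, h2, h3⟩
      rw [hm] at h1 h2 h3
      have e1 := Fin.eq_one_of_ne_zero _ h1
      have e2 := Fin.eq_one_of_ne_zero _ h2
      have e3 := Fin.eq_one_of_ne_zero _ h3
      exact hcc ⟨by rw [e1, e2], by rw [e2, e3]⟩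

theorem result : ∀ (col : EuclideanSpace ℝ (Fin 2) → Fin 2), NullMeasurableSet (col ⁻¹' {0}) →
    ∀ d d' : ℝ, 0 < d → 0 < d' → d ≠ d' →
      (¬ ∃ x y z : EuclideanSpace ℝ (Fin 2),
          dist x y = d ∧ dist y z = d ∧ dist x z = d ∧ col x = col y ∧ col y = col z) →
      ∃ x y z : EuclideanSpace ℝ (Fin 2),
          dist x y = d' ∧ dist y z = d' ∧ dist x z = d' ∧ col x = col y ∧ col y = col z := by
  intro col hcol d d' hd hd' hdd hno
  by_contra hno'
  rcases lt_or_gt_of_ne hdd with h | h
  · exact main hcol hd h hno hno'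
  · exact main hcol hd' h hno' hno

end Pool.Agent.Results.MP_3852e9_co.MeasurableColourings
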